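import Pool.Agent.H62.UV.Base

/-!
# UV, module EXT: generic extensions
-/

set_option autoImplicit false

open Set Filter Topology

namespace Pool.Agent.H62.UV

open Pool.Agent.H72.UV

open Classical in
/-- the coordinates in `S` become generic coordinates -/
noncomputable def mvS {M ν ι : Type} (S : Set ν) : M ⊕ (ν ⊕ ι) → M ⊕ (ν ⊕ (S ⊕ ι))
  | Sum.inl y => Sum.inl y
  | Sum.inr (Sum.inl i) => if h : i ∈ S then Sum.inr (Sum.inr (Sum.inl ⟨i, h⟩))
      else Sum.inr (Sum.inl i)
  | Sum.inr (Sum.inr j) => Sum.inr (Sum.inr (Sum.inr j))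

open Classical in
lemma elim_mvS {M ν ι : Type} (S : Set ν) (x u : ν → M) (w : ι → M) (a : M ⊕ (ν ⊕ ι)) :
    Sum.elim id (Sum.elim x (Sum.elim (res S u) w)) (mvS S a) =
      Sum.elim id (Sum.elim (S.piecewise u x) w) a := by
  rcases a with a | (i | j)
  · rfl
  · by_cases h : i ∈ S
    · simp [mvS, h, res, piecewise]
    · simp [mvS, h, piecewise]
  · rfl

open Classical in
lemma map_mvS {M ν ι : Type} (S : Set ν) (x u : ν → M) (w : ι → M) (l : List (M ⊕ (ν ⊕ ι))) :
    (l.map (mvS S)).map (Sum.elim id (Sum.elim x (Sum.elim (res S u) w))) =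
      l.map (Sum.elim id (Sum.elim (S.piecewise u x) w)) := by
  rw [List.map_map]
  apply List.map_congr_left
  intro a _
  exact elim_mvS S x u w a

lemma mvS_inl {M ν ι : Type} {S : Set ν} {l : List (M ⊕ (ν ⊕ ι))} {y : M}
    (h : Sum.inl y ∈ l.map (mvS S)) : Sum.inl y ∈ l := by
  rw [List.mem_map] at h
  obtain ⟨a, ha, ha'⟩ := h
  rcases a with a | (i | j)
  · simp only [mvS, Sum.inl.injEq] at ha'
    subst ha'
    exact ha
  · simp only [mvS] at ha'
    split_ifs at ha'
  · simp [mvS] at ha'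

lemma mvS_inr {M ν ι : Type} {S : Set ν} {l : List (M ⊕ (ν ⊕ ι))} {i : ν}
    (h : Sum.inr (Sum.inl i) ∈ l.map (mvS S)) : Sum.inr (Sum.inl i) ∈ l ∧ i ∉ S := by
  rw [List.mem_map] at h
  obtain ⟨a, ha, ha'⟩ := h
  rcases a with a | (j | j)
  · simp [mvS] at ha'
  · simp only [mvS] at ha'
    split_ifs at ha' with hj
    · simp at ha'
    · simp only [Sum.inr.injEq, Sum.inl.injEq] at ha'
      subst ha'
      exact ⟨ha, hj⟩
  · simp [mvS] at ha'

theorem ext : T_EXT := by
  classical
  intro M C c m K hG ν S T hS hT hST x x' hTT U hU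
  obtain ⟨D⟩ := exists_test hG (hS.union hT)
  have := D.finτ
  have hSf : Finite S := hS
  have key : ∀ t : D.τ, ∀ᶠ u in (U : Filter (ν → M)), ∀ᶠ w in (D.U t : Filter (D.ι t → M)),
      c ((D.l t).map (Sum.elim id (Sum.elim (S.piecewise u x) w))) =
        c ((D.l t).map (Sum.elim id (Sum.elim (S.piecewise u x') w))) := by
    intro t
    have hι := D.finι t
    have h1 := hTT (S ⊕ D.ι t) inferInstance (prodU (resU S U) (D.U t))
      (free_prodU (free_resU hU) (D.free t)) ((D.l t).map (mvS S))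
      (fun y hy => D.inK t y (mvS_inl hy))
      (fun i hi => (D.inA t i (mvS_inr hi).1).resolve_left (mvS_inr hi).2)
    rw [eventually_prodU, eventually_resU] at h1
    filter_upwards [h1] with u hu
    filter_upwards [hu] with w hw
    rw [map_mvS, map_mvS] at hw
    exact hw
  filter_upwards [eventually_all.mpr key] with u hu
  exact D.tt _ _ hu

end Pool.Agent.H62.UV
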