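import Pool.Agent.H62.UV.SWP
import Pool.Agent.H62.UV.EXT

/-!
# UV, module CALC: the laws of independence
-/

set_option autoImplicit false

open Set Filter Topology

namespace Pool.Agent.H62.UV

open Pool.Agent.H72.UV

open Classical in
/-- combined ultrafilter: first `v`, then replace the coordinates in `S` by `u` -/
noncomputable def comb {ν M : Type} (S : Set ν) (V U : Ultrafilter (ν → M)) :
    Ultrafilter (ν → M) :=
  Ultrafilter.bind V (fun v => U.map (fun u => S.piecewise u v))

open Classical in
lemma eventually_comb {ν M : Type} {S : Set ν} {V U : Ultrafilter (ν → M)}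
    {p : (ν → M) → Prop} :
    (∀ᶠ w in (comb S V U : Filter (ν → M)), p w) ↔
      ∀ᶠ v in (V : Filter (ν → M)), ∀ᶠ u in (U : Filter (ν → M)), p (S.piecewise u v) := by
  unfold comb
  have : ((Ultrafilter.bind V (fun v => U.map (fun u => S.piecewise u v)) :
      Ultrafilter (ν → M)) : Filter (ν → M))
      = Filter.bind (V : Filter (ν → M)) (fun v => Filter.map (fun u => S.piecewise u v)
        (U : Filter (ν → M))) := rfl
  rw [this, Filter.eventually_bind]
  simp only [Filter.eventually_map]

open Classical in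
lemma freeOn_comb {ν M : Type} {S T : Set ν} {V U : Ultrafilter (ν → M)} (hU : FreeOn S U)
    (hV : FreeOn T V) : FreeOn (S ∪ T) (comb S V U) := by
  refine ⟨fun i hi j hj hij => ?_, fun i hi y => ?_⟩
  · rw [eventually_comb]
    by_cases hiS : i ∈ S
    · by_cases hjS : j ∈ S
      · refine Eventually.of_forall fun v => ?_
        filter_upwards [hU.1 i hiS j hjS hij] with u hu
        simpa [piecewise, hiS, hjS] using hu
      · refine Eventually.of_forall fun v => ?_
        filter_upwards [hU.2 i hiS (v j)] with u hu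
        simpa [piecewise, hiS, hjS] using hu
    · by_cases hjS : j ∈ S
      · refine Eventually.of_forall fun v => ?_
        filter_upwards [hU.2 j hjS (v i)] with u hu
        simpa [piecewise, hiS, hjS] using Ne.symm hu
      · filter_upwards [hV.1 i (hi.resolve_left hiS) j (hj.resolve_left hjS) hij] with v hv
        refine Eventually.of_forall fun u => ?_
        simpa [piecewise, hiS, hjS] using hv
  · rw [eventually_comb]
    by_cases hiS : i ∈ S
    · refine Eventually.of_forall fun v => ?_
      filter_upwards [hU.2 i hiS y] with u hu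
      simpa [piecewise, hiS] using hu
    · filter_upwards [hV.2 i (hi.resolve_left hiS) y] with v hv
      refine Eventually.of_forall fun u => ?_
      simpa [piecewise, hiS] using hv

lemma freeOn_mono {ν M : Type} {S S' : Set ν} {U : Ultrafilter (ν → M)} (h : S' ⊆ S)
    (hU : FreeOn S U) : FreeOn S' U :=
  ⟨fun i hi j hj => hU.1 i (h hi) j (h hj), fun i hi => hU.2 i (h hi)⟩

open Classical in
lemma pw_comb {ν M : Type} (S T : Set ν) (u v x : ν → M)
    (inst : ∀ j, Decidable (j ∈ S ∪ T)) :
    @piecewise ν (fun _ => M) (S ∪ T) (S.piecewise u v) x inst =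
      S.piecewise u (T.piecewise v x) := by
  funext i
  by_cases h : i ∈ S
  · simp [piecewise, h]
  · by_cases h' : i ∈ T
    · simp [piecewise, h, h']
    · simp [piecewise, h, h']

open Classical in
lemma pw_swap {ν M : Type} {S T : Set ν} (hST : Disjoint S T) (u v x : ν → M) :
    T.piecewise v (S.piecewise u x) = S.piecewise u (T.piecewise v x) := by
  funext i
  by_cases h : i ∈ S
  · have h' : i ∉ T := fun h' => (Set.disjoint_left.mp hST) h h'
    simp [piecewise, h, h']
  · by_cases h' : i ∈ T
    · simp [piecewise, h, h']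
    · simp [piecewise, h, h']

open Classical in
lemma pw_idem {ν M : Type} (S : Set ν) (u u0 x : ν → M) :
    S.piecewise u (S.piecewise u0 x) = S.piecewise u x := by
  funext i
  by_cases h : i ∈ S <;> simp [piecewise, h]

section
variable {M C : Type} {c : Str M C} {m : ℕ} {K : Set M} {ν : Type}

lemma ind_inv (hG : Good m c K) {x x' : ν → M} {S T : Set ν} (hS : S.Finite) (hT : T.Finite)
    (hST : Disjoint S T) (h : TT c K (S ∪ T) x x') (hI : Ind c K x S T) : Ind c K x' S T := by
  classical
  obtain ⟨U, hU, hTT⟩ := hI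
  refine ⟨U, hU, ?_⟩
  have h1 := ext M C c m K hG ν S T hS hT hST x x' (tt_res subset_union_right h) U hU
  filter_upwards [hTT, h1] with u h2 h3
  exact tt_trans (tt_symm h) (tt_trans h2 h3)

open Classical in
/-- the final step: it suffices to have generic replacements in some other tuple -/
lemma ind_of (hG : Good m c K) {x x1 : ν → M} {S T : Set ν} (hS : S.Finite) (hT : T.Finite)
    (hST : Disjoint S T) {U : Ultrafilter (ν → M)} (hU : FreeOn S U)
    (h : ∀ᶠ u in (U : Filter (ν → M)), TT c K (S ∪ T) x (S.piecewise u x1)) :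
    Ind c K x S T := by
  obtain ⟨u0, hu0⟩ := h.exists
  have h1 : Ind c K (S.piecewise u0 x1) S T := by
    refine ⟨U, hU, ?_⟩
    filter_upwards [h] with u hu
    rw [pw_idem]
    exact tt_trans (tt_symm hu0) hu
  exact ind_inv hG hS hT hST (tt_symm hu0) h1

end

theorem calc' : T_CALC := by
  classical
  intro M C c m K hG
  refine ⟨?_, ?_, ?_, ?_, ?_, ?_⟩
  · -- restriction
    rintro ν x S T S' T' hST hS' hT' ⟨U, hU, hTT⟩
    refine ⟨U, freeOn_mono hS' hU, ?_⟩
    filter_upwards [hTT] with u hu
    refine tt_congr (fun _ _ => rfl) (fun i hi => ?_) (tt_res (union_subset_union hS' hT') hu)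
    by_cases h : i ∈ S'
    · simp [piecewise, h, hS' h]
    · have h1 : i ∉ S := fun h2 => (Set.disjoint_left.mp hST) h2 (hT' (hi.resolve_left h))
      simp [piecewise, h, h1]
  · intro ν x x' S T hS hT hST h hI
    exact ind_inv hG hS hT hST h hI
  · -- i3
    rintro ν x S T W hS hT hW hST hSW hTW ⟨U, hU, hTU⟩ ⟨V, hV, hTV⟩
    refine ⟨comb S V U, freeOn_comb hU hV, ?_⟩
    rw [eventually_comb]
    filter_upwards [hTV] with v hv
    have h1 := ext M C c m K hG ν S (T ∪ W) hS (hT.union hW) (hST.union_right hSW) x
      (T.piecewise v x) hv U hU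
    filter_upwards [hTU, h1] with u h2 h3
    rw [pw_comb, union_assoc]
    exact tt_trans h2 h3
  · -- i4
    rintro ν x S T W hS hT hW hST hSW hTW ⟨Z, hZ, hTZ⟩ ⟨U, hU, hTU⟩
    have hx : ∀ᶠ z in (Z : Filter (ν → M)), TT c K (S ∪ T) x z := by
      filter_upwards [hTZ] with z hz
      refine tt_congr (fun _ _ => rfl) (fun i hi => ?_) (tt_res subset_union_left hz)
      exact if_pos hi
    have hx' : ∀ᶠ z' in (comb S Z U : Filter (ν → M)), TT c K (S ∪ T) x z' := by
      rw [eventually_comb]
      filter_upwards [hx] with z hz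
      have h1 := ext M C c m K hG ν S T hS hT hST x z (tt_res subset_union_right hz) U hU
      filter_upwards [hTU, h1] with u h2 h3
      exact tt_trans h2 h3
    have hKT : ∀ᶠ z in (Z : Filter (ν → M)), ∀ᶠ z' in (comb S Z U : Filter (ν → M)),
        KT c K (S ∪ T) z z' := by
      filter_upwards [hx] with z hz
      filter_upwards [hx'] with z' hz'
      exact tt_kt (tt_trans (tt_symm hz) hz')
    have hfree : FreeOn (S ∪ T) (comb S Z U) :=
      freeOn_comb hU (freeOn_mono subset_union_right hZ)
    have h1 := l1 M C c m K hG ν (S ∪ T) W (hS.union hT) hW (hSW.union_left hTW) Z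
      (comb S Z U) hZ hfree hKT x
    obtain ⟨z, hz1, hz2⟩ := (hTZ.and h1).exists
    have h2 := hz2.mono fun z' hz' => tt_trans hz1 hz'
    rw [eventually_comb] at h2
    obtain ⟨z', hz'⟩ := h2.exists
    refine ind_of hG (x1 := T.piecewise z' x) hS (hT.union hW) (hST.union_right hSW) hU ?_
    filter_upwards [hz'] with u hu
    rw [pw_comb, union_assoc] at hu
    exact hu
  · -- i5
    rintro ν x S T W hS hT hW hST hSW hTW ⟨V, hV, hTV⟩ ⟨U, hU, hTU⟩
    have h1 : ∀ᶠ u in (U : Filter (ν → M)), ∀ᶠ v in (V : Filter (ν → M)),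
        TT c K (S ∪ T ∪ W) x (S.piecewise u (T.piecewise v x)) := by
      filter_upwards [hTU] with u hu
      have h2 := ext M C c m K hG ν T (S ∪ W) hT (hS.union hW) (hST.symm.union_right hTW) x
        (S.piecewise u x) hu V hV
      filter_upwards [hTV, h2] with v h3 h4
      have h5 := tt_trans h3 h4
      rw [pw_swap hST, ← union_assoc, union_comm T S] at h5
      exact h5
    have h2 := swp M C c m K hG ν S T W hS hT hW hST hSW hTW U V hU hV x x h1
    obtain ⟨v, hv⟩ := h2.exists
    refine ind_of hG (x1 := T.piecewise v x) hS (hT.union hW) (hST.union_right hSW) hU ?_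
    filter_upwards [hv] with u hu
    rw [union_assoc] at hu
    exact hu
  · -- un
    rintro ν x x' S T hS hT hST ⟨U, hU, hTU⟩ ⟨U', hU', hTU'⟩ hTS hTT
    have hKT : ∀ᶠ u in (U : Filter (ν → M)), ∀ᶠ u' in (U' : Filter (ν → M)),
        KT c K S u u' := by
      filter_upwards [hTU] with u hu
      filter_upwards [hTU'] with u' hu'
      have h1 : TT c K S x u := tt_congr (fun _ _ => rfl)
        (fun i hi => piecewise_eq_of_mem _ _ _ hi) (tt_res subset_union_left hu)
      have h2 : TT c K S x' u' := tt_congr (fun _ _ => rfl)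
        (fun i hi => piecewise_eq_of_mem _ _ _ hi) (tt_res subset_union_left hu')
      exact tt_kt (tt_trans (tt_symm h1) (tt_trans hTS h2))
    have h1 := l1 M C c m K hG ν S T hS hT hST U U' hU hU' hKT x
    have h2 := ext M C c m K hG ν S T hS hT hST x x' hTT U' hU'
    obtain ⟨u, hu1, hu2⟩ := (hTU.and h1).exists
    obtain ⟨u', ⟨hu3, hu4⟩, hu5⟩ := ((hu2.and h2).and hTU').exists
    exact tt_trans hu1 (tt_trans hu3 (tt_trans hu4 (tt_symm hu5)))

end Pool.Agent.H62.UV
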