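import Pool.Agent.H62.UV.Base

/-!
# UV, module CST: types are almost everywhere constant
-/

set_option autoImplicit false

open Set Filter Topology

namespace Pool.Agent.H62.UV

open Pool.Agent.H72.UV

theorem cst : T_CST := by
  intro M C c m K hG ν W hW U
  obtain ⟨D⟩ := exists_test hG hW
  have := D.finτ
  have hval : ∀ (t : D.τ) (u : ν → M), ∃ z, ∀ᶠ w in (D.U t : Filter (D.ι t → M)),
      c ((D.l t).map (Sum.elim id (Sum.elim u w))) = z := fun t u =>
    exists_val' hG.fin (D.U t) (fun w => (D.l t).map (Sum.elim id (Sum.elim u w)))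
  choose v hv using hval
  have hrange : ∀ t : D.τ, (range (v t)).Finite := by
    intro t
    apply hG.fin.subset
    rintro _ ⟨u, rfl⟩
    obtain ⟨w, hw⟩ := (hv t u).exists
    exact ⟨_, hw⟩
  have hconst : ∀ t : D.τ, ∃ z, ∀ᶠ u in (U : Filter (ν → M)), v t u = z := fun t =>
    exists_val U (v t) (hrange t)
  choose z hz using hconst
  have hall : ∀ᶠ u in (U : Filter (ν → M)), ∀ t, v t u = z t := eventually_all.mpr hz
  filter_upwards [hall] with u hu
  filter_upwards [hall] with u' hu'
  apply D.tt
  intro t
  filter_upwards [hv t u, hv t u'] with w h1 h2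
  rw [h1, h2, hu t, hu' t]

end Pool.Agent.H62.UV
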