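import Pool.Agent.H62.UV.Base

/-!
# UV, module L1: generic tuples of the same type over `K`
-/

set_option autoImplicit false

open Set Filter Topology

namespace Pool.Agent.H62.UV

open Pool.Agent.H72.UV

lemma exists_val2 {α β M C : Type} {c : Str M C} (hc : (range c).Finite) (Q : Ultrafilter α)
    (U : Ultrafilter β) (f : α → β → List M) :
    ∃ z, ∀ᶠ a in (Q : Filter α), ∀ᶠ b in (U : Filter β), c (f a b) = z := by
  have h : ∀ a, ∃ z, ∀ᶠ b in (U : Filter β), c (f a b) = z := fun a =>
    exists_val' hc U (f a)
  choose v hv using h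
  have hr : (range v).Finite := by
    apply hc.subset
    rintro _ ⟨a, rfl⟩
    obtain ⟨b, hb⟩ := (hv a).exists
    exact ⟨_, hb⟩
  obtain ⟨z, hz⟩ := exists_val Q v hr
  refine ⟨z, ?_⟩
  filter_upwards [hz] with a ha
  rw [← ha]
  exact hv a

open Classical in
/-- coordinates in `S` become the second block, the others are filled with `y` -/
noncomputable def mvY {M ν ι : Type} (S : Set ν) (y : ν → M) : M ⊕ (ν ⊕ ι) → M ⊕ (ι ⊕ S)
  | Sum.inl a => Sum.inl a
  | Sum.inr (Sum.inl i) => if h : i ∈ S then Sum.inr (Sum.inr ⟨i, h⟩) else Sum.inl (y i)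
  | Sum.inr (Sum.inr j) => Sum.inr (Sum.inl j)

open Classical in
lemma map_mvY {M ν ι : Type} (S : Set ν) (y u : ν → M) (w : ι → M) (l : List (M ⊕ (ν ⊕ ι))) :
    (l.map (mvY S y)).map (Sum.elim id (Sum.elim w (res S u))) =
      l.map (Sum.elim id (Sum.elim (S.piecewise u y) w)) := by
  rw [List.map_map]
  apply List.map_congr_left
  rintro (a | (i | j)) _
  · rfl
  · by_cases h : i ∈ S
    · simp [mvY, h, res, piecewise]
    · simp [mvY, h, piecewise]
  · rfl

open Classical in
/-- the same with the generic coordinates filled as well -/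
noncomputable def mvW {M ν ι : Type} (S : Set ν) (y : ν → M) (w : ι → M) :
    M ⊕ (ν ⊕ ι) → M ⊕ S
  | Sum.inl a => Sum.inl a
  | Sum.inr (Sum.inl i) => if h : i ∈ S then Sum.inr ⟨i, h⟩ else Sum.inl (y i)
  | Sum.inr (Sum.inr j) => Sum.inl (w j)

open Classical in
lemma map_mvW {M ν ι : Type} (S : Set ν) (y u : ν → M) (w : ι → M) (l : List (M ⊕ (ν ⊕ ι))) :
    (l.map (mvW S y w)).map (Sum.elim id (res S u)) =
      l.map (Sum.elim id (Sum.elim (S.piecewise u y) w)) := by
  rw [List.map_map]
  apply List.map_congr_left
  rintro (a | (i | j)) _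
  · rfl
  · by_cases h : i ∈ S
    · simp [mvW, h, res, piecewise]
    · simp [mvW, h, piecewise]
  · rfl

open Classical in
/-- exchange of the quantifiers over generic tuples and over a test ultrafilter -/
lemma comm_one {M C : Type} {c : Str M C} (hc : Comm c) {ν ι : Type} {S : Set ν} (hS : S.Finite)
    [Finite ι] {U : Ultrafilter (ν → M)} (hU : FreeOn S U) {Q : Ultrafilter (ι → M)}
    (hQ : Free Q) (l : List (M ⊕ (ν ⊕ ι))) (y : ν → M) {z : C}
    (h : ∀ᶠ w in (Q : Filter (ι → M)), ∀ᶠ u in (U : Filter (ν → M)),
      c (l.map (Sum.elim id (Sum.elim (S.piecewise u y) w))) = z) :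
    ∀ᶠ u in (U : Filter (ν → M)), ∀ᶠ w in (Q : Filter (ι → M)),
      c (l.map (Sum.elim id (Sum.elim (S.piecewise u y) w))) = z := by
  have hSf : Finite S := hS
  have h1 := hc ι S inferInstance inferInstance Q (resU S U) hQ (free_resU hU)
    (l.map (mvY S y)) z (by
      filter_upwards [h] with w hw
      rw [eventually_resU]
      filter_upwards [hw] with u hu
      rw [map_mvY]
      exact hu)
  rw [eventually_resU] at h1
  filter_upwards [h1] with u hu
  filter_upwards [hu] with w hw
  rw [map_mvY] at hw
  exact hw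

theorem l1 : T_L1 := by
  classical
  intro M C c m K hG ν S T hS hT hST U U' hU hU' hKT y
  obtain ⟨D⟩ := exists_test hG (hS.union hT)
  have := D.finτ
  have hSf : Finite S := hS
  -- the restrictions have the same limit type
  have hLK : LEq c K (resU S U) (resU S U') := by
    intro l hl
    rw [eventually_resU]
    filter_upwards [hKT] with u hu
    rw [eventually_resU]
    filter_upwards [hu] with u' hu'
    have h1 := hu' (l.map (Sum.map id Subtype.val))
      (by
        intro a ha
        rw [List.mem_map] at ha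
        obtain ⟨b, hb, hb'⟩ := ha
        rcases b with b | i
        · simp only [Sum.map_inl, id_eq, Sum.inl.injEq] at hb'
          subst hb'
          exact hl _ hb
        · simp at hb')
      (by
        intro i hi
        rw [List.mem_map] at hi
        obtain ⟨b, hb, hb'⟩ := hi
        rcases b with b | j
        · simp at hb'
        · simp only [Sum.map_inr, Sum.inr.injEq] at hb'
          subst hb'
          exact j.2)
    have h2 : ∀ v : ν → M, (l.map (Sum.map id Subtype.val)).map (Sum.elim id v) =
        l.map (Sum.elim id (res S v)) := by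
      intro v
      rw [List.map_map]
      apply List.map_congr_left
      rintro (b | j) _ <;> rfl
    rw [h2, h2] at h1
    exact h1
  have hLM : LEq c univ (resU S U) (resU S U') :=
    hG.kd S inferInstance _ _ (free_resU hU) (free_resU hU') hLK
  -- for every test
  have key : ∀ t : D.τ, ∃ z,
      (∀ᶠ u in (U : Filter (ν → M)), ∀ᶠ w in (D.U t : Filter (D.ι t → M)),
        c ((D.l t).map (Sum.elim id (Sum.elim (S.piecewise u y) w))) = z) ∧
      ∀ᶠ u' in (U' : Filter (ν → M)), ∀ᶠ w in (D.U t : Filter (D.ι t → M)),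
        c ((D.l t).map (Sum.elim id (Sum.elim (S.piecewise u' y) w))) = z := by
    intro t
    have hι := D.finι t
    obtain ⟨z, hz⟩ := exists_val2 hG.fin (D.U t) U
      (fun w u => (D.l t).map (Sum.elim id (Sum.elim (S.piecewise u y) w)))
    refine ⟨z, comm_one hG.comm hS hU (D.free t) _ y hz,
      comm_one hG.comm hS hU' (D.free t) _ y ?_⟩
    filter_upwards [hz] with w hw
    have h1 := hLM ((D.l t).map (mvW S y w)) (fun _ _ => mem_univ _)
    rw [eventually_resU] at h1
    obtain ⟨u, hu1, hu2⟩ := (hw.and h1).exists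
    rw [eventually_resU] at hu2
    filter_upwards [hu2] with u' hu'
    rw [map_mvW, map_mvW] at hu'
    rw [← hu', hu1]
  choose z hz1 hz2 using key
  filter_upwards [eventually_all.mpr hz1] with u hu
  filter_upwards [eventually_all.mpr hz2] with u' hu'
  apply D.tt
  intro t
  filter_upwards [hu t, hu' t] with w h1 h2
  rw [h1, h2]

end Pool.Agent.H62.UV
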