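import Pool.Agent.H62.UV.Base

/-!
# UV, module RI: reindexing
-/

set_option autoImplicit false

open Set Filter Topology

namespace Pool.Agent.H62.UV

open Pool.Agent.H72.UV

theorem ri : T_RI := by
  classical
  intro M C c K ν ν' ρ S T hinj hdis x x'
  refine ⟨tt_reindex, ?_, ?_⟩
  · rintro ⟨U, hU, hTT⟩
    refine ⟨U.map (fun u => u ∘ ρ), ⟨fun i hi j hj hij => ?_, fun i hi y => ?_⟩, ?_⟩
    · rw [Ultrafilter.coe_map, Filter.eventually_map]
      exact hU.1 (ρ i) ⟨i, hi, rfl⟩ (ρ j) ⟨j, hj, rfl⟩
        (fun h => hij (hinj (Or.inl hi) (Or.inl hj) h))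
    · rw [Ultrafilter.coe_map, Filter.eventually_map]
      exact hU.2 (ρ i) ⟨i, hi, rfl⟩ y
    · rw [Ultrafilter.coe_map, Filter.eventually_map]
      filter_upwards [hTT] with u hu
      rw [← image_union] at hu
      refine tt_congr (fun i _ => rfl) (fun i hi => ?_) (tt_push hu)
      by_cases hiS : i ∈ S
      · have h1 : ρ i ∈ ρ '' S := ⟨i, hiS, rfl⟩
        simp only [Function.comp_apply, piecewise, h1, hiS, if_true]
      · have hiT : i ∈ T := hi.resolve_left hiS
        have h1 : ρ i ∉ ρ '' S := by
          rintro ⟨j, hj, hji⟩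
          have := hinj (Or.inl hj) (Or.inr hiT) hji
          exact hiS (this ▸ hj)
        simp only [Function.comp_apply, piecewise, h1, hiS, if_false]
  · rintro ⟨U, hU, hTT⟩
    rcases isEmpty_or_nonempty ν with hν | hν
    · have hS : S = ∅ := Subsingleton.elim _ _
      have hT : T = ∅ := Subsingleton.elim _ _
      subst hS hT
      refine ⟨pure x, ⟨fun i hi => ?_, fun i hi => ?_⟩, ?_⟩
      · simp at hi
      · simp at hi
      · refine Eventually.of_forall fun u => tt_congr (fun _ _ => rfl) (fun i hi => ?_) (tt_rfl x)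
        simp at hi
    · set σ : ν' → ν := Function.invFunOn ρ S with hσ
      have hσ1 : ∀ i ∈ ρ '' S, σ i ∈ S := fun i hi => Function.invFunOn_mem hi
      have hσ2 : ∀ i ∈ ρ '' S, ρ (σ i) = i := fun i hi => Function.invFunOn_eq hi
      refine ⟨U.map (fun u => (ρ '' S).piecewise (u ∘ σ) x),
        ⟨fun i hi j hj hij => ?_, fun i hi y => ?_⟩, ?_⟩
      · rw [Ultrafilter.coe_map, Filter.eventually_map]
        filter_upwards [hU.1 (σ i) (hσ1 i hi) (σ j) (hσ1 j hj)
          (fun h => hij (by rw [← hσ2 i hi, ← hσ2 j hj, h]))] with u hu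
        simp only [piecewise, hi, hj, if_true, Function.comp_apply]
        exact hu
      · rw [Ultrafilter.coe_map, Filter.eventually_map]
        filter_upwards [hU.2 (σ i) (hσ1 i hi) y] with u hu
        simp only [piecewise, hi, if_true, Function.comp_apply]
        exact hu
      · rw [Ultrafilter.coe_map, Filter.eventually_map]
        filter_upwards [hTT] with u hu
        rw [← image_union]
        apply tt_pull
        refine tt_congr (fun i _ => rfl) (fun i hi => ?_) hu
        by_cases hiS : i ∈ S
        · have h1 : ρ i ∈ ρ '' S := ⟨i, hiS, rfl⟩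
          have h2 : σ (ρ i) = i :=
            hinj (Or.inl (hσ1 _ h1)) (Or.inl hiS) (hσ2 _ h1)
          simp only [Function.comp_apply, piecewise, h1, hiS, if_true, h2]
        · have hiT : i ∈ T := hi.resolve_left hiS
          have h1 : ρ i ∉ ρ '' S := by
            rintro ⟨j, hj, hji⟩
            have := hinj (Or.inl hj) (Or.inr hiT) hji
            exact hiS (this ▸ hj)
          simp only [Function.comp_apply, piecewise, h1, hiS, if_false]

end Pool.Agent.H62.UV
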