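import Pool.Agent.H62.UV.Base

/-!
# UV, module TT
-/

set_option autoImplicit false

open Set Filter Topology

namespace Pool.Agent.H62.UV

open Pool.Agent.H72.UV

theorem tt : T_TT := fun _ _ _ _ _ _ =>
  ⟨fun _ _ h => tt_kt h, fun x => tt_rfl x, fun _ _ h => tt_symm h,
    fun _ _ _ h h' => tt_trans h h',
    fun _ _ _ _ h1 h2 h => tt_congr h1 h2 h, fun _ _ _ hW h => tt_res hW h⟩

end Pool.Agent.H62.UV
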