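import Pool.Agent.H72.UV.Targets

/-!
# UV, helper lemmas for the calculus of independence
-/

set_option autoImplicit false

open Set Filter Topology

namespace Pool.Agent.H62.UV

open Pool.Agent.H72.UV

/-! ### ultrafilters -/

/-- a function with finitely many values is almost everywhere constant -/
lemma exists_val {α C : Type} (U : Ultrafilter α) (f : α → C) (h : (range f).Finite) :
    ∃ z, ∀ᶠ a in (U : Filter α), f a = z := by
  have h1 := Ultrafilter.eventually_exists_mem_iff (f := U) (P := fun (z : C) (a : α) => f a = z) h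
  have h2 : ∀ᶠ a in (U : Filter α), ∃ z ∈ range f, f a = z :=
    Eventually.of_forall fun a => ⟨f a, ⟨a, rfl⟩, rfl⟩
  obtain ⟨z, _, hz⟩ := h1.mp h2
  exact ⟨z, hz⟩

lemma exists_val' {α M C : Type} {c : Str M C} (hc : (range c).Finite) (U : Ultrafilter α)
    (f : α → List M) : ∃ z, ∀ᶠ a in (U : Filter α), c (f a) = z :=
  exists_val U (fun a => c (f a)) (hc.subset (by rintro _ ⟨a, rfl⟩; exact ⟨_, rfl⟩))

/-- if two a.e. statements about values hold they have the same value -/
lemma val_unique {α C : Type} {U : Ultrafilter α} {f : α → C} {z z' : C}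
    (h : ∀ᶠ a in (U : Filter α), f a = z) (h' : ∀ᶠ a in (U : Filter α), f a = z') : z = z' := by
  obtain ⟨a, h1, h2⟩ := (h.and h').exists
  rw [← h1, ← h2]

/-- the iterated product of ultrafilters on tuples (the first is outside) -/
noncomputable def prodU {ι κ M : Type} (U : Ultrafilter (ι → M)) (V : Ultrafilter (κ → M)) :
    Ultrafilter (ι ⊕ κ → M) :=
  Ultrafilter.bind U (fun u => V.map (fun v => Sum.elim u v))

lemma eventually_prodU {ι κ M : Type} {U : Ultrafilter (ι → M)} {V : Ultrafilter (κ → M)}
    {p : (ι ⊕ κ → M) → Prop} :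
    (∀ᶠ w in (prodU U V : Filter (ι ⊕ κ → M)), p w) ↔
      ∀ᶠ u in (U : Filter (ι → M)), ∀ᶠ v in (V : Filter (κ → M)), p (Sum.elim u v) := by
  unfold prodU
  have : ((Ultrafilter.bind U (fun u => V.map (fun v => Sum.elim u v)) :
      Ultrafilter (ι ⊕ κ → M)) : Filter (ι ⊕ κ → M))
      = Filter.bind (U : Filter (ι → M)) (fun u => Filter.map (fun v => Sum.elim u v)
        (V : Filter (κ → M))) := rfl
  rw [this, Filter.eventually_bind]
  simp only [Filter.eventually_map]

lemma free_prodU {ι κ M : Type} {U : Ultrafilter (ι → M)} {V : Ultrafilter (κ → M)}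
    (hU : Free U) (hV : Free V) : Free (prodU U V) := by
  refine ⟨?_, ?_⟩
  · rintro (i | i) (j | j) hij
    · rw [eventually_prodU]
      filter_upwards [hU.1 i j (fun h => hij (by rw [h]))] with u hu
      exact Eventually.of_forall fun v => hu
    · rw [eventually_prodU]
      refine Eventually.of_forall fun u => ?_
      filter_upwards [hV.2 j (u i)] with v hv
      exact fun h => hv h.symm
    · rw [eventually_prodU]
      refine Eventually.of_forall fun u => ?_
      filter_upwards [hV.2 i (u j)] with v hv
      exact hv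
    · rw [eventually_prodU]
      refine Eventually.of_forall fun u => ?_
      filter_upwards [hV.1 i j (fun h => hij (by rw [h]))] with v hv
      exact hv
  · rintro (i | i) y
    · rw [eventually_prodU]
      filter_upwards [hU.2 i y] with u hu
      exact Eventually.of_forall fun v => hu
    · rw [eventually_prodU]
      refine Eventually.of_forall fun u => ?_
      filter_upwards [hV.2 i y] with v hv
      exact hv

/-- the restriction of a tuple to the coordinates in `S` -/
def res {ν M : Type} (S : Set ν) (u : ν → M) : S → M := fun i => u i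

/-- the restriction of an ultrafilter on tuples -/
def resU {ν M : Type} (S : Set ν) (U : Ultrafilter (ν → M)) : Ultrafilter (S → M) :=
  U.map (res S)

lemma eventually_resU {ν M : Type} {S : Set ν} {U : Ultrafilter (ν → M)} {p : (S → M) → Prop} :
    (∀ᶠ w in (resU S U : Filter (S → M)), p w) ↔ ∀ᶠ u in (U : Filter (ν → M)), p (res S u) := by
  unfold resU
  rw [Ultrafilter.coe_map, Filter.eventually_map]

lemma free_resU {ν M : Type} {S : Set ν} {U : Ultrafilter (ν → M)} (hU : FreeOn S U) :
    Free (resU S U) := by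
  refine ⟨fun i j hij => ?_, fun i y => ?_⟩
  · rw [eventually_resU]
    exact hU.1 i.1 i.2 j.1 j.2 (fun h => hij (Subtype.ext h))
  · rw [eventually_resU]
    exact hU.2 i.1 i.2 y

/-! ### elementary facts on `TT` -/

section
variable {M C ν : Type} {c : Str M C} {K : Set M} {W : Set ν}

lemma tt_rfl (x : ν → M) : TT c K W x x :=
  fun _ _ _ _ _ _ _ => Eventually.of_forall fun _ => rfl

lemma tt_symm {x x' : ν → M} (h : TT c K W x x') : TT c K W x' x :=
  fun ι hι U hU l h1 h2 => (h ι hι U hU l h1 h2).mono fun _ h => h.symm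

lemma tt_trans {x x' x'' : ν → M} (h : TT c K W x x') (h' : TT c K W x' x'') :
    TT c K W x x'' :=
  fun ι hι U hU l h1 h2 =>
    ((h ι hι U hU l h1 h2).and (h' ι hι U hU l h1 h2)).mono fun _ h => h.1.trans h.2

lemma tt_res {x x' : ν → M} {W' : Set ν} (hW : W' ⊆ W) (h : TT c K W x x') :
    TT c K W' x x' :=
  fun ι hι U hU l h1 h2 => h ι hι U hU l h1 fun i hi => hW (h2 i hi)

lemma tt_congr {x x' y y' : ν → M} (h1 : ∀ i ∈ W, x i = y i) (h2 : ∀ i ∈ W, x' i = y' i)
    (h : TT c K W x x') : TT c K W y y' := by
  intro ι hι U hU l h3 h4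
  filter_upwards [h ι hι U hU l h3 h4] with u hu
  have e1 : l.map (Sum.elim id (Sum.elim y u)) = l.map (Sum.elim id (Sum.elim x u)) := by
    apply List.map_congr_left
    rintro (a | (i | j)) ha
    · rfl
    · exact (h1 i (h4 i ha)).symm
    · rfl
  have e2 : l.map (Sum.elim id (Sum.elim y' u)) = l.map (Sum.elim id (Sum.elim x' u)) := by
    apply List.map_congr_left
    rintro (a | (i | j)) ha
    · rfl
    · exact (h2 i (h4 i ha)).symm
    · rfl
  rw [e1, e2, hu]

lemma tt_kt {x x' : ν → M} (h : TT c K W x x') : KT c K W x x' := by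
  intro l h1 h2
  have h3 := h Empty inferInstance (pure fun e => e.elim) ⟨fun i => i.elim, fun i => i.elim⟩
    (l.map (Sum.map id Sum.inl))
    (by
      intro y hy
      rw [List.mem_map] at hy
      obtain ⟨a, ha, ha'⟩ := hy
      rcases a with a | i
      · simp only [Sum.map_inl, id_eq, Sum.inl.injEq] at ha'
        subst ha'
        exact h1 _ ha
      · simp at ha')
    (by
      intro i hi
      rw [List.mem_map] at hi
      obtain ⟨a, ha, ha'⟩ := hi
      rcases a with a | j
      · simp at ha'
      · simp only [Sum.map_inr, Sum.inr.injEq, Sum.inl.injEq] at ha'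
        subst ha'
        exact h2 _ ha)
  have h4 : ∀ z : ν → M, ∀ u : Empty → M,
      (l.map (Sum.map id Sum.inl)).map (Sum.elim id (Sum.elim z u)) = l.map (Sum.elim id z) := by
    intro z u
    rw [List.map_map]
    apply List.map_congr_left
    rintro (a | i) _ <;> rfl
  obtain ⟨u, hu⟩ := h3.exists
  rw [h4, h4] at hu
  exact hu

end

/-! ### reindexing -/

section
variable {M C : Type} {c : Str M C} {K : Set M} {ν ν' : Type}

lemma tt_push {ρ : ν → ν'} {S : Set ν} {x x' : ν' → M} (h : TT c K (ρ '' S) x x') :
    TT c K S (x ∘ ρ) (x' ∘ ρ) := by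
  intro ι hι U hU l h1 h2
  have h3 := h ι hι U hU (l.map (Sum.map id (Sum.map ρ id)))
    (by
      intro y hy
      rw [List.mem_map] at hy
      obtain ⟨a, ha, ha'⟩ := hy
      rcases a with a | i
      · simp only [Sum.map_inl, id_eq, Sum.inl.injEq] at ha'
        subst ha'
        exact h1 _ ha
      · simp at ha')
    (by
      intro i hi
      rw [List.mem_map] at hi
      obtain ⟨a, ha, ha'⟩ := hi
      rcases a with a | (j | j)
      · simp at ha'
      · simp only [Sum.map_inr, Sum.map_inl, Sum.inr.injEq, Sum.inl.injEq] at ha'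
        subst ha'
        exact ⟨j, h2 _ ha, rfl⟩
      · simp at ha')
  filter_upwards [h3] with u hu
  have h4 : ∀ z : ν' → M,
      (l.map (Sum.map id (Sum.map ρ id))).map (Sum.elim id (Sum.elim z u)) =
        l.map (Sum.elim id (Sum.elim (z ∘ ρ) u)) := by
    intro z
    rw [List.map_map]
    apply List.map_congr_left
    rintro (a | (i | j)) _ <;> rfl
  rw [h4, h4] at hu
  exact hu

lemma tt_pull {ρ : ν → ν'} {S : Set ν} {x x' : ν' → M} (h : TT c K S (x ∘ ρ) (x' ∘ ρ)) :
    TT c K (ρ '' S) x x' := by
  intro ι hι U hU l h1 h2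
  rcases isEmpty_or_nonempty ν with hν | hν
  · refine Eventually.of_forall fun u => ?_
    congr 1
    apply List.map_congr_left
    rintro (a | (i | j)) ha
    · rfl
    · obtain ⟨k, _, _⟩ := h2 i ha
      exact hν.elim k
    · rfl
  · set σ : ν' → ν := Function.invFunOn ρ S with hσ
    have hσ1 : ∀ i ∈ ρ '' S, σ i ∈ S := fun i hi => Function.invFunOn_mem hi
    have hσ2 : ∀ i ∈ ρ '' S, ρ (σ i) = i := fun i hi => Function.invFunOn_eq hi
    have h3 := h ι hι U hU (l.map (Sum.map id (Sum.map σ id)))
      (by
        intro y hy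
        rw [List.mem_map] at hy
        obtain ⟨a, ha, ha'⟩ := hy
        rcases a with a | i
        · simp only [Sum.map_inl, id_eq, Sum.inl.injEq] at ha'
          subst ha'
          exact h1 _ ha
        · simp at ha')
      (by
        intro i hi
        rw [List.mem_map] at hi
        obtain ⟨a, ha, ha'⟩ := hi
        rcases a with a | (j | j)
        · simp at ha'
        · simp only [Sum.map_inr, Sum.map_inl, Sum.inr.injEq, Sum.inl.injEq] at ha'
          subst ha'
          exact hσ1 _ (h2 _ ha)
        · simp at ha')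
    filter_upwards [h3] with u hu
    have h4 : ∀ z : ν' → M,
        (l.map (Sum.map id (Sum.map σ id))).map (Sum.elim id (Sum.elim (z ∘ ρ) u)) =
          l.map (Sum.elim id (Sum.elim z u)) := by
      intro z
      rw [List.map_map]
      apply List.map_congr_left
      rintro (a | (i | j)) ha
      · rfl
      · simp only [Function.comp_apply, Sum.map_inr, Sum.map_inl, Sum.elim_inr, Sum.elim_inl]
        rw [hσ2 i (h2 i ha)]
      · rfl
    rw [h4, h4] at hu
    exact hu

lemma tt_reindex {ρ : ν → ν'} {S : Set ν} {x x' : ν' → M} :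
    TT c K (ρ '' S) x x' ↔ TT c K S (x ∘ ρ) (x' ∘ ρ) := ⟨tt_push, tt_pull⟩

end

/-! ### finite determination for finite index sets -/

/-- the test data for a finite set `A` of coordinates -/
structure Test {M C : Type} (c : Str M C) (K : Set M) {ν : Type} (A : Set ν) where
  τ : Type
  finτ : Finite τ
  ι : τ → Type
  finι : ∀ t, Finite (ι t)
  U : ∀ t, Ultrafilter (ι t → M)
  l : ∀ t, List (M ⊕ (ν ⊕ ι t))
  free : ∀ t, Free (U t)
  inK : ∀ t y, Sum.inl y ∈ l t → y ∈ K
  inA : ∀ t i, Sum.inr (Sum.inl i) ∈ l t → i ∈ A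
  tt : ∀ x x' : ν → M, (∀ t, ∀ᶠ u in (U t : Filter (ι t → M)),
    c ((l t).map (Sum.elim id (Sum.elim x u))) = c ((l t).map (Sum.elim id (Sum.elim x' u)))) →
    TT c K A x x'

lemma exists_test {M C : Type} {c : Str M C} {m : ℕ} {K : Set M} (hG : Good m c K) {ν : Type}
    {A : Set ν} (hA : A.Finite) : Nonempty (Test c K A) := by
  have : Finite A := hA
  obtain ⟨τ, hτ, ι, hι, U, l, h1, h2, h3⟩ := hG.fd A inferInstance
  refine ⟨⟨τ, hτ, ι, hι, U, fun t => (l t).map (Sum.map id (Sum.map Subtype.val id)), h1, ?_, ?_,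
    ?_⟩⟩
  · intro t y hy
    rw [List.mem_map] at hy
    obtain ⟨a, ha, ha'⟩ := hy
    rcases a with a | i
    · simp only [Sum.map_inl, id_eq, Sum.inl.injEq] at ha'
      subst ha'
      exact h2 _ _ ha
    · simp at ha'
  · intro t i hi
    rw [List.mem_map] at hi
    obtain ⟨a, ha, ha'⟩ := hi
    rcases a with a | (j | j)
    · simp at ha'
    · simp only [Sum.map_inr, Sum.map_inl, Sum.inr.injEq, Sum.inl.injEq] at ha'
      subst ha'
      exact j.2
    · simp at ha'
  · intro x x' h
    have h4 : TT c K (Subtype.val '' (univ : Set A)) x x' := by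
      apply tt_pull
      apply h3
      intro t
      filter_upwards [h t] with u hu
      have h5 : ∀ z : ν → M,
          ((l t).map (Sum.map id (Sum.map Subtype.val id))).map (Sum.elim id (Sum.elim z u)) =
            (l t).map (Sum.elim id (Sum.elim (z ∘ Subtype.val) u)) := by
        intro z
        rw [List.map_map]
        apply List.map_congr_left
        rintro (a | (i | j)) _ <;> rfl
      rw [h5, h5] at hu
      exact hu
    have h6 : (Subtype.val '' (univ : Set A)) = A := by
      rw [image_univ, Subtype.range_val]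
    rw [h6] at h4
    exact h4

end Pool.Agent.H62.UV
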