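import Pool.Agent.H62.UV.L1

/-!
# UV, module SWP: almost all quantifiers commute
-/

set_option autoImplicit false

open Set Filter Topology

namespace Pool.Agent.H62.UV

open Pool.Agent.H72.UV

open Classical in
/-- coordinates in `S` become the first block, those in `T` the second one, the others are filled
with `y` -/
noncomputable def mvT {M ν ι : Type} (S T : Set ν) (y : ν → M) :
    M ⊕ (ν ⊕ ι) → M ⊕ (S ⊕ (T ⊕ ι))
  | Sum.inl a => Sum.inl a
  | Sum.inr (Sum.inl i) => if h : i ∈ S then Sum.inr (Sum.inl ⟨i, h⟩) else
      if h' : i ∈ T then Sum.inr (Sum.inr (Sum.inl ⟨i, h'⟩)) else Sum.inl (y i)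
  | Sum.inr (Sum.inr j) => Sum.inr (Sum.inr (Sum.inr j))

open Classical in
lemma map_mvT {M ν ι : Type} (S T : Set ν) (y u v : ν → M) (w : ι → M)
    (l : List (M ⊕ (ν ⊕ ι))) :
    (l.map (mvT S T y)).map (Sum.elim id (Sum.elim (res S u) (Sum.elim (res T v) w))) =
      l.map (Sum.elim id (Sum.elim (S.piecewise u (T.piecewise v y)) w)) := by
  rw [List.map_map]
  apply List.map_congr_left
  rintro (a | (i | j)) _
  · rfl
  · by_cases h : i ∈ S
    · simp [mvT, h, res, piecewise]
    · by_cases h' : i ∈ T
      · simp [mvT, h, h', res, piecewise]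
      · simp [mvT, h, h', piecewise]
  · rfl

theorem swp : T_SWP := by
  classical
  intro M C c m K hG ν S T W hS hT hW hST hSW hTW U V hU hV x y hyp
  obtain ⟨D⟩ := exists_test hG ((hS.union hT).union hW)
  have := D.finτ
  have hSf : Finite S := hS
  have hTf : Finite T := hT
  have hval : ∀ t : D.τ, ∃ z, ∀ᶠ w in (D.U t : Filter (D.ι t → M)),
      c ((D.l t).map (Sum.elim id (Sum.elim x w))) = z := fun t =>
    exists_val' hG.fin (D.U t) _
  choose z hz using hval
  have key : ∀ t : D.τ, ∀ᶠ v in (V : Filter (ν → M)), ∀ᶠ u in (U : Filter (ν → M)),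
      ∀ᶠ w in (D.U t : Filter (D.ι t → M)),
      c ((D.l t).map (Sum.elim id (Sum.elim (S.piecewise u (T.piecewise v y)) w))) = z t := by
    intro t
    have hι := D.finι t
    have h1 := hG.comm S (T ⊕ D.ι t) inferInstance inferInstance (resU S U)
      (prodU (resU T V) (D.U t)) (free_resU hU) (free_prodU (free_resU hV) (D.free t))
      ((D.l t).map (mvT S T y)) (z t) (by
        rw [eventually_resU]
        filter_upwards [hyp] with u hu
        rw [eventually_prodU, eventually_resU]
        filter_upwards [hu] with v hv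
        have h2 := hv (D.ι t) inferInstance (D.U t) (D.free t) (D.l t) (D.inK t) (D.inA t)
        filter_upwards [h2, hz t] with w h3 h4
        rw [map_mvT, ← h3, h4])
    rw [eventually_prodU, eventually_resU] at h1
    filter_upwards [h1] with v hv
    apply comm_one hG.comm hS hU (D.free t)
    filter_upwards [hv] with w hw
    rw [eventually_resU] at hw
    filter_upwards [hw] with u hu
    rw [map_mvT] at hu
    exact hu
  filter_upwards [eventually_all.mpr key] with v hv
  filter_upwards [eventually_all.mpr hv] with u hu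
  apply D.tt
  intro t
  filter_upwards [hu t, hz t] with w h1 h2
  rw [h1, h2]

end Pool.Agent.H62.UV
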